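import Pool.Agent.W564.SC.Defs

/-! Scaled affine bumps (project OF, helper813). -/

set_option autoImplicit false

open scoped Manifold ContDiff Topology
open Filter Set Metric

namespace Pool.Agent.N756.OF

open Pool.Agent.H718R2.G Pool.Agent.W564.SC

theorem aff_bd {E : Type*} [NormedAddCommGroup E] [NormedSpace ℝ E] (w : E) (T : E →L[ℝ] E)
    {ρ : ℝ} (hρ : 0 < ρ) (hw : ‖w‖ ≤ ρ) (x : E) (hx : ‖x‖ ≤ ρ) (l : ℕ) :
    ‖iteratedFDeriv ℝ l (fun x : E => -w + T (x - w)) x‖ ≤ (ρ⁻¹) ^ l * (‖w‖ + 2 * ρ * ‖T‖) := by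
  have h0 : 0 ≤ ‖w‖ + 2 * ρ * ‖T‖ := by positivity
  have hfd : fderiv ℝ (fun x : E => -w + T (x - w)) = fun _ => T := by
    funext y
    have h1 : HasFDerivAt (fun x : E => x - w) (ContinuousLinearMap.id ℝ E) y :=
      (hasFDerivAt_id y).sub_const w
    have h2 : HasFDerivAt (fun x : E => -w + T (x - w)) (T.comp (ContinuousLinearMap.id ℝ E)) y :=
      (T.hasFDerivAt.comp y h1).const_add (-w)
    rw [h2.fderiv, ContinuousLinearMap.comp_id]
  rcases l with _ | _ | l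
  · rw [norm_iteratedFDeriv_zero, pow_zero, one_mul]
    have h1 : ‖T (x - w)‖ ≤ ‖T‖ * (2 * ρ) := by
      refine (T.le_opNorm _).trans (mul_le_mul_of_nonneg_left ?_ (norm_nonneg _))
      exact (norm_sub_le _ _).trans (by linarith)
    calc ‖-w + T (x - w)‖ ≤ ‖-w‖ + ‖T (x - w)‖ := norm_add_le _ _
      _ ≤ ‖w‖ + 2 * ρ * ‖T‖ := by rw [norm_neg]; linarith
  · rw [← norm_iteratedFDeriv_fderiv, hfd, norm_iteratedFDeriv_zero, zero_add, pow_one]
    have h1 : ρ⁻¹ * (‖w‖ + 2 * ρ * ‖T‖) = ρ⁻¹ * ‖w‖ + 2 * ‖T‖ := by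
      field_simp
    rw [h1]
    have h2 : 0 ≤ ρ⁻¹ * ‖w‖ := by positivity
    linarith [norm_nonneg T]
  · rw [← norm_iteratedFDeriv_fderiv, hfd, iteratedFDeriv_const_of_ne (by omega)]
    simp only [Pi.zero_apply, norm_zero]
    positivity

theorem bump2 : ∀ n k : ℕ, 1 ≤ k → ∃ C : ℝ, 0 < C ∧ ∀ ρ : ℝ, 0 < ρ → ρ ≤ 1 / 4 → ∀ w : V n,
    ‖w‖ ≤ ρ / 2 → ∀ T : V n →L[ℝ] V n, ∃ u : V n → V n,
      Small n k (C * (‖w‖ / ρ ^ k + ‖T‖ / ρ ^ (k - 1))) u ∧
      (∀ᶠ x in 𝓝 w, u x = -w + T (x - w)) ∧ ∀ x, ρ ≤ ‖x‖ → u x = 0 := by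
  intro n k hk
  let β : ContDiffBump (0 : V n) := ⟨3 / 4, 1, by norm_num, by norm_num⟩
  have hβs : ContDiff ℝ ∞ (β : V n → ℝ) := β.contDiff
  have hβc : HasCompactSupport (β : V n → ℝ) := β.hasCompactSupport
  have hbd : ∀ j : ℕ, ∃ C : ℝ, ∀ x : V n, ‖iteratedFDeriv ℝ j (β : V n → ℝ) x‖ ≤ C := by
    intro j
    have hc : Continuous (iteratedFDeriv ℝ j (β : V n → ℝ)) :=
      hβs.continuous_iteratedFDeriv (by exact_mod_cast le_top)
    exact hc.bounded_above_of_compact_support (hβc.iteratedFDeriv j)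
  choose C hC using hbd
  have hC0 : ∀ j, 0 ≤ C j := fun j => (norm_nonneg _).trans (hC j 0)
  set A : ℝ := 1 + ∑ j ∈ Finset.range (k + 1), C j with hA
  have hA0 : 0 < A := by
    have := Finset.sum_nonneg (fun j (_ : j ∈ Finset.range (k + 1)) => hC0 j)
    linarith
  have hCA : ∀ j ≤ k, C j ≤ A := by
    intro j hj
    have := Finset.single_le_sum (fun i (_ : i ∈ Finset.range (k + 1)) => hC0 i)
      (Finset.mem_range.2 (Nat.lt_succ_of_le hj))
    linarith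
  refine ⟨2 ^ (k + 1) * A, by positivity, ?_⟩
  intro ρ hρ hρ4 w hw T
  set M : V n →L[ℝ] V n := ρ⁻¹ • ContinuousLinearMap.id ℝ (V n) with hM
  have hMx : ∀ x, M x = ρ⁻¹ • x := fun x => by simp [hM]
  have hnM : ‖M‖ ≤ ρ⁻¹ := by
    refine ContinuousLinearMap.opNorm_le_bound _ (inv_nonneg.2 hρ.le) (fun x => ?_)
    rw [hMx, norm_smul, Real.norm_of_nonneg (inv_nonneg.2 hρ.le)]
  have hρ1 : 1 ≤ ρ⁻¹ := by
    rw [one_le_inv₀ hρ]; linarith
  have hnx : ∀ x : V n, ‖ρ⁻¹ • x‖ = ‖x‖ / ρ := fun x => by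
    rw [norm_smul, Real.norm_of_nonneg (inv_nonneg.2 hρ.le), div_eq_inv_mul]
  have hzero : ∀ x : V n, ρ ≤ ‖x‖ → ((β : V n → ℝ) ∘ M) x • (-w + T (x - w)) = 0 := by
    intro x hx
    have h1 : β (ρ⁻¹ • x) = 0 := by
      apply β.zero_of_le_dist
      rw [dist_zero_right, hnx]
      show (1 : ℝ) ≤ _
      rw [le_div_iff₀ hρ]
      linarith
    simp only [Function.comp_apply, hMx, h1, zero_smul]
  have hcomp : ContDiff ℝ ∞ ((β : V n → ℝ) ∘ M) := hβs.comp M.contDiff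
  have haff : ContDiff ℝ ∞ (fun x : V n => -w + T (x - w)) :=
    contDiff_const.add (T.contDiff.comp (contDiff_id.sub contDiff_const))
  have hnn : 0 ≤ ‖w‖ / ρ ^ k + ‖T‖ / ρ ^ (k - 1) := by positivity
  refine ⟨fun x => ((β : V n → ℝ) ∘ M) x • (-w + T (x - w)), ⟨?_, ?_, ?_⟩, ?_, hzero⟩
  · exact hcomp.smul haff
  · intro x hx
    exact hzero x (by linarith)
  · intro j hj x
    rcases lt_or_ge ρ ‖x‖ with hx | hx
    · have hev : (fun x => ((β : V n → ℝ) ∘ M) x • (-w + T (x - w))) =ᶠ[𝓝 x]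
          fun _ => (0 : V n) := by
        have : ∀ᶠ y in 𝓝 x, ρ < ‖y‖ := (isOpen_lt continuous_const continuous_norm).mem_nhds hx
        filter_upwards [this] with y hy
        exact hzero y hy.le
      rw [(hev.iteratedFDeriv ℝ j).eq_of_nhds]
      have : iteratedFDeriv ℝ j (fun _ : V n => (0 : V n)) x = 0 := by
        simp
      rw [this, norm_zero]
      positivity
    · have h1 := norm_iteratedFDeriv_smul_le (𝕜 := ℝ) hcomp haff x (n := j)
        (by exact_mod_cast le_top)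
      refine h1.trans ?_
      have h2 : ∀ i ∈ Finset.range (j + 1),
          (j.choose i : ℝ) * ‖iteratedFDeriv ℝ i ((β : V n → ℝ) ∘ M) x‖ *
            ‖iteratedFDeriv ℝ (j - i) (fun x : V n => -w + T (x - w)) x‖ ≤
          (j.choose i : ℝ) * (A * ((ρ⁻¹) ^ k * (‖w‖ + 2 * ρ * ‖T‖))) := by
        intro i hi
        have hij : i ≤ j := Nat.lt_succ_iff.1 (Finset.mem_range.1 hi)
        have h3 : ‖iteratedFDeriv ℝ i ((β : V n → ℝ) ∘ M) x‖ ≤ A * (ρ⁻¹) ^ i := by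
          rw [M.iteratedFDeriv_comp_right hβs x (by exact_mod_cast le_top)]
          refine (ContinuousMultilinearMap.norm_compContinuousLinearMap_le _ _).trans ?_
          rw [Finset.prod_const, Finset.card_univ, Fintype.card_fin]
          exact mul_le_mul ((hC i _).trans (hCA i (hij.trans hj)))
            (pow_le_pow_left₀ (norm_nonneg _) hnM i) (pow_nonneg (norm_nonneg _) _) hA0.le
        have h4 := aff_bd w T hρ (by linarith) x hx (j - i)
        have h5 : (ρ⁻¹) ^ i * (ρ⁻¹) ^ (j - i) ≤ (ρ⁻¹) ^ k := by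
          rw [← pow_add]
          exact pow_le_pow_right₀ hρ1 (by omega)
        rw [mul_assoc]
        refine mul_le_mul_of_nonneg_left ?_ (Nat.cast_nonneg _)
        calc ‖iteratedFDeriv ℝ i ((β : V n → ℝ) ∘ M) x‖ *
              ‖iteratedFDeriv ℝ (j - i) (fun x : V n => -w + T (x - w)) x‖
            ≤ (A * (ρ⁻¹) ^ i) * ((ρ⁻¹) ^ (j - i) * (‖w‖ + 2 * ρ * ‖T‖)) :=
              mul_le_mul h3 h4 (norm_nonneg _) (by positivity)
          _ = A * (((ρ⁻¹) ^ i * (ρ⁻¹) ^ (j - i)) * (‖w‖ + 2 * ρ * ‖T‖)) := by ring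
          _ ≤ A * ((ρ⁻¹) ^ k * (‖w‖ + 2 * ρ * ‖T‖)) := by
              refine mul_le_mul_of_nonneg_left ?_ hA0.le
              exact mul_le_mul_of_nonneg_right h5 (by positivity)
      refine (Finset.sum_le_sum h2).trans ?_
      rw [← Finset.sum_mul, ← Nat.cast_sum, Nat.sum_range_choose]
      have h6 : (ρ⁻¹) ^ k * (‖w‖ + 2 * ρ * ‖T‖) ≤ 2 * (‖w‖ / ρ ^ k + ‖T‖ / ρ ^ (k - 1)) := by
        obtain ⟨k', rfl⟩ : ∃ k', k = k' + 1 := ⟨k - 1, by omega⟩
        have e1 : (ρ⁻¹) ^ (k' + 1) * (‖w‖ + 2 * ρ * ‖T‖) =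
            ‖w‖ / ρ ^ (k' + 1) + 2 * (‖T‖ / ρ ^ k') := by
          rw [inv_pow]
          field_simp
          ring
        rw [e1, Nat.add_sub_cancel]
        have : 0 ≤ ‖w‖ / ρ ^ (k' + 1) := by positivity
        linarith
      have h7 : ((2 ^ j : ℕ) : ℝ) ≤ 2 ^ k := by
        push_cast
        exact pow_le_pow_right₀ (by norm_num) hj
      calc ((2 ^ j : ℕ) : ℝ) * (A * ((ρ⁻¹) ^ k * (‖w‖ + 2 * ρ * ‖T‖)))
          ≤ 2 ^ k * (A * (2 * (‖w‖ / ρ ^ k + ‖T‖ / ρ ^ (k - 1)))) := by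
            refine mul_le_mul h7 (mul_le_mul_of_nonneg_left h6 hA0.le) (by positivity)
              (by positivity)
        _ = 2 ^ (k + 1) * A * (‖w‖ / ρ ^ k + ‖T‖ / ρ ^ (k - 1)) := by ring
  · have hlt : ‖w‖ < 3 / 4 * ρ := by linarith
    have : ∀ᶠ y in 𝓝 w, ‖y‖ < 3 / 4 * ρ := (isOpen_lt continuous_norm continuous_const).mem_nhds hlt
    filter_upwards [this] with y hy
    have h1 : β (ρ⁻¹ • y) = 1 := by
      apply β.one_of_mem_closedBall
      rw [mem_closedBall, dist_zero_right, hnx]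
      show _ ≤ (3 / 4 : ℝ)
      rw [div_le_iff₀ hρ]
      exact hy.le
    simp only [Function.comp_apply, hMx, h1, one_smul]

end Pool.Agent.N756.OF
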